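import Mathlib

set_option autoImplicit false

/-!
# Separating partition regularity over bounded-degree polynomial sets

For every `n ≥ 1` ONE pattern, which has a copy in `P 1` and so in every `P d`, and which is
partition regular over `P d` if and only if `d > n`. So this pattern separates `P i` from `P j` for
all `i ≤ n < j` at the same time.

The pattern has the formal variables `f 1, …, f N` (`N = 2 n ^ 2 + 1`), `u, g, t` and the values
* the sum of the `f k`, `k ∈ S`, for every nonempty `S`,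
* `u (g e + t)`, with `e` the elementary symmetric polynomial of degree `n + 1` of the `f k`.
It is multilinear, so it has a copy in `P 1`.

* Not partition regular over `P n`: colour by being a product of two polynomials without constant
  term. As `u (g e + t)` is such a product and lies in `P n`, every variable occurs in at most `n`
  of the `f k`, and all the sums are products. If a sum over `S` is `b c`, fix monomials `b₀, c₀`
  of `b` and `c`. At most `2 n` of the `f k` contain all variables of `b₀` or all of `c₀`, and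
  every variable of the sum occurs in one of these. Removing them and repeating `n` times shows
  `N ≤ 2 n ^ 2`.
* Partition regular over `P (n + 1)`: the finite unions theorem (from the theorem of Hindman) for
  sums of blocks `v (w D + x)`, and an induction which makes one colour after the other
  impossible for the elements `u (g D + t)` above some `D` in fresh variables.
-/

namespace Pool.Agent.Results.MP_b358a5_co.MultilinearThreshold

open MvPolynomial

/-- `P d`, for `d` a natural number or infinity: the nonzero polynomials in the indeterminates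
`x_0, x_1, x_2, …` with coefficients in `ℕ`, zero constant term, and degree at most `d` in each
single variable. -/
def P (d : ℕ∞) : Set (MvPolynomial ℕ ℕ) :=
  {f | f ≠ 0 ∧ constantCoeff f = 0 ∧ ∀ n : ℕ, (degreeOf n f : ℕ∞) ≤ d}

/-- The family `a` is a copy of the pattern `F` in `S`. -/
def IsCopy {σ ι : Type} (F : ι → MvPolynomial σ ℕ) (S : Set (MvPolynomial ℕ ℕ))
    (a : σ → MvPolynomial ℕ ℕ) : Prop :=
  (∀ t, a t ∈ S) ∧ ∀ l, aeval a (F l) ∈ S

/-- The colouring `c` of `S` has a monochromatic copy of the pattern `F`. -/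
def HasMono {σ ι : Type} (F : ι → MvPolynomial σ ℕ) (S : Set (MvPolynomial ℕ ℕ)) {r : ℕ}
    (c : S → Fin r) : Prop :=
  ∃ (a : σ → MvPolynomial ℕ ℕ) (h : IsCopy F S a),
    ∀ l l', c ⟨aeval a (F l), h.2 l⟩ = c ⟨aeval a (F l'), h.2 l'⟩

/-- The pattern `F` is partition regular over `S`: every finite colouring of `S` has a
monochromatic copy of `F`. -/
def PartitionRegular {σ ι : Type} (F : ι → MvPolynomial σ ℕ) (S : Set (MvPolynomial ℕ ℕ)) : Prop :=
  ∀ (r : ℕ) (c : S → Fin r), HasMono F S c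

/-- The same with the additional requirement that the entries of the copy are distinct and that
the values of the pattern are distinct. -/
def PartitionRegularDistinct {σ ι : Type} (F : ι → MvPolynomial σ ℕ)
    (S : Set (MvPolynomial ℕ ℕ)) : Prop :=
  ∀ (r : ℕ) (c : S → Fin r), ∃ (a : σ → MvPolynomial ℕ ℕ) (h : IsCopy F S a),
    Function.Injective a ∧ (Function.Injective fun l => aeval a (F l)) ∧
    ∀ l l', c ⟨aeval a (F l), h.2 l⟩ = c ⟨aeval a (F l'), h.2 l'⟩

/-! ### The finite unions theorem -/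

/-- indicator function of a finite set -/
noncomputable def ind (A : Finset ℕ) : ℕ →₀ ℕ := ∑ i ∈ A, Finsupp.single i 1

lemma ind_apply (A : Finset ℕ) (i : ℕ) : ind A i = if i ∈ A then 1 else 0 := by
  classical
  unfold ind
  rw [Finsupp.finsetSum_apply]
  simp [Finsupp.single_apply]

lemma ind_inj {A B : Finset ℕ} (h : ind A = ind B) : A = B := by
  ext i
  have := DFunLike.congr_fun h i
  rw [ind_apply, ind_apply] at this
  by_cases h1 : i ∈ A <;> by_cases h2 : i ∈ B <;> simp_all

lemma ind_union {A B : Finset ℕ} (h : Disjoint A B) : ind (A ∪ B) = ind A + ind B := by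
  unfold ind
  rw [Finset.sum_union h]

lemma mem_FS_aux (a : Stream' (ℕ →₀ ℕ)) (m : ℕ →₀ ℕ) (h : m ∈ Hindman.FS a) :
    ∀ j : ℕ, (∀ i, a.get i = Finsupp.single (j + i) 1) →
      ∃ A : Finset ℕ, A.Nonempty ∧ (∀ i ∈ A, j ≤ i) ∧ m = ind A := by
  classical
  induction h with
  | head' a =>
    intro j hj
    refine ⟨{j}, Finset.singleton_nonempty _, by simp, ?_⟩
    have := hj 0
    simp only [add_zero] at this
    rw [ind, Finset.sum_singleton, ← this]
  | tail' a m h ih =>
    intro j hj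
    obtain ⟨A, h1, h2, h3⟩ := ih (j + 1) (fun i => by
      have := hj (i + 1)
      rw [show j + 1 + i = j + (i + 1) by ring, ← this]
      rfl)
    exact ⟨A, h1, fun i hi => by have := h2 i hi; omega, h3⟩
  | cons' a m h ih =>
    intro j hj
    obtain ⟨A, h1, h2, h3⟩ := ih (j + 1) (fun i => by
      have := hj (i + 1)
      rw [show j + 1 + i = j + (i + 1) by ring, ← this]
      rfl)
    have hjA : j ∉ A := fun hi => by have := h2 j hi; omega
    refine ⟨insert j A, Finset.insert_nonempty _ _, fun i hi => ?_, ?_⟩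
    · rcases Finset.mem_insert.1 hi with rfl | hi
      · exact le_rfl
      · have := h2 i hi
        omega
    · rw [ind, Finset.sum_insert hjA, h3, ind]
      have := hj 0
      simp only [add_zero] at this
      rw [← this]
  
/-- The finite unions theorem. -/
lemma finite_unions {r : ℕ} (χ : Finset ℕ → Fin r) :
    ∃ (A : ℕ → Finset ℕ) (j : Fin r), (∀ k, (A k).Nonempty) ∧
      (∀ k l, k ≠ l → Disjoint (A k) (A l)) ∧
      ∀ S : Finset ℕ, S.Nonempty → χ (S.biUnion A) = j := by
  classical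
  let a : Stream' (ℕ →₀ ℕ) := fun i => Finsupp.single i 1
  let cls : Fin r → Set (ℕ →₀ ℕ) := fun j => {m | ∃ A : Finset ℕ, A.Nonempty ∧ m = ind A ∧ χ A = j}
  obtain ⟨c, ⟨j, rfl⟩, b, hb⟩ := Hindman.FS_partition_regular a (Set.range cls) (Set.finite_range _)
    (by
      intro m hm
      obtain ⟨A, h1, -, h3⟩ := mem_FS_aux a m hm 0 (fun i => by simp [a, Stream'.get])
      exact ⟨cls (χ A), ⟨_, rfl⟩, A, h1, h3, rfl⟩)
  have hmem : ∀ S : Finset ℕ, S.Nonempty → ∑ i ∈ S, b.get i ∈ cls j := fun S hS =>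
    hb (Hindman.FS.finsetSum b S hS)
  have hk : ∀ k, ∃ A : Finset ℕ, A.Nonempty ∧ b.get k = ind A := fun k => by
    obtain ⟨A, h1, h2, -⟩ := hmem {k} (Finset.singleton_nonempty _)
    rw [Finset.sum_singleton] at h2
    exact ⟨A, h1, h2⟩
  choose A hA1 hA2 using hk
  have hdisj : ∀ k l, k ≠ l → Disjoint (A k) (A l) := by
    intro k l hkl
    obtain ⟨B, -, h2, -⟩ := hmem {k, l} (by simp)
    rw [Finset.sum_pair hkl, hA2, hA2] at h2
    rw [Finset.disjoint_left]
    intro i hi hi'
    have := DFunLike.congr_fun h2 i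
    rw [Finsupp.add_apply, ind_apply, ind_apply, ind_apply, if_pos hi, if_pos hi'] at this
    split_ifs at this
    omega
  refine ⟨A, j, hA1, hdisj, fun S hS => ?_⟩
  obtain ⟨B, -, h2, h3⟩ := hmem S hS
  have : ∑ i ∈ S, b.get i = ind (S.biUnion A) := by
    unfold ind
    rw [Finset.sum_biUnion (fun k _ l _ hkl => hdisj k l hkl)]
    exact Finset.sum_congr rfl fun k _ => hA2 k
  rw [this] at h2
  rw [ind_inj h2]
  exact h3

/-- Successive choices with pairwise disjoint finite sets. -/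
lemma choose_seq {α : Type*} (ν : α → Finset ℕ) (Φ : α → Prop)
    (h : ∀ X : Finset ℕ, ∃ y, Φ y ∧ Disjoint (ν y) X) (X₀ : Finset ℕ) :
    ∃ y : ℕ → α, (∀ i, Φ (y i)) ∧ (∀ i, Disjoint (ν (y i)) X₀) ∧
      ∀ i j, i ≠ j → Disjoint (ν (y i)) (ν (y j)) := by
  classical
  choose f hf1 hf2 using h
  let U : ℕ → Finset ℕ := fun i => Nat.rec X₀ (fun _ V => V ∪ ν (f V)) i
  have hU : ∀ i, U (i + 1) = U i ∪ ν (f (U i)) := fun i => rfl
  have hmono : Monotone U := monotone_nat_of_le_succ fun i => by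
    rw [hU]; exact Finset.subset_union_left
  refine ⟨fun i => f (U i), fun i => hf1 _, fun i => ?_, ?_⟩
  · exact Disjoint.mono_right (hmono (Nat.zero_le i)) (hf2 (U i))
  · have key : ∀ i j, i < j → Disjoint (ν (f (U i))) (ν (f (U j))) := by
      intro i j hij
      have h1 : ν (f (U i)) ⊆ U j := by
        refine subset_trans ?_ (hmono (Nat.succ_le_of_lt hij))
        rw [hU]
        exact Finset.subset_union_right
      exact (Disjoint.mono_right h1 (hf2 (U j))).symm
    intro i j hij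
    rcases lt_or_gt_of_ne hij with h | h
    · exact key i j h
    · exact (key j i h).symm

/-! ### Degrees -/

lemma mem_support_add {f g : MvPolynomial ℕ ℕ} {m : ℕ →₀ ℕ} :
    m ∈ (f + g).support ↔ m ∈ f.support ∨ m ∈ g.support := by
  simp only [MvPolynomial.mem_support_iff, MvPolynomial.coeff_add]
  omega

lemma mem_support_sum {ι : Type*} {s : Finset ι} {f : ι → MvPolynomial ℕ ℕ} {m : ℕ →₀ ℕ} :
    m ∈ (∑ i ∈ s, f i).support ↔ ∃ i ∈ s, m ∈ (f i).support := by
  classical
  induction s using Finset.induction_on with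
  | empty => simp
  | insert a s ha ih =>
    rw [Finset.sum_insert ha, mem_support_add, ih]
    simp

lemma mem_support_mul {f g : MvPolynomial ℕ ℕ} {m : ℕ →₀ ℕ} :
    m ∈ (f * g).support ↔ ∃ a ∈ f.support, ∃ b ∈ g.support, m = a + b := by
  classical
  constructor
  · intro h
    have := MvPolynomial.support_mul f g h
    rw [Finset.mem_add] at this
    obtain ⟨a, ha, b, hb, hab⟩ := this
    exact ⟨a, ha, b, hb, hab.symm⟩
  · rintro ⟨a, ha, b, hb, rfl⟩
    rw [MvPolynomial.mem_support_iff, MvPolynomial.coeff_mul]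
    intro h
    rw [Finset.sum_eq_zero_iff] at h
    have h1 := h (a, b) (by simp)
    rw [MvPolynomial.mem_support_iff] at ha hb
    rcases Nat.mul_eq_zero.1 h1 with h2 | h2
    · exact ha h2
    · exact hb h2

lemma degreeOf_le_add_left (n : ℕ) (f g : MvPolynomial ℕ ℕ) :
    degreeOf n f ≤ degreeOf n (f + g) := by
  rw [degreeOf_eq_sup, degreeOf_eq_sup]
  exact Finset.sup_mono fun e he => mem_support_add.2 (Or.inl he)

lemma degreeOf_le_add_right (n : ℕ) (f g : MvPolynomial ℕ ℕ) :
    degreeOf n g ≤ degreeOf n (f + g) := by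
  rw [add_comm]
  exact degreeOf_le_add_left n g f

lemma degreeOf_le_sum {ι : Type*} (n : ℕ) (s : Finset ι) (f : ι → MvPolynomial ℕ ℕ) {i : ι}
    (hi : i ∈ s) : degreeOf n (f i) ≤ degreeOf n (∑ i ∈ s, f i) := by
  rw [degreeOf_eq_sup, degreeOf_eq_sup]
  exact Finset.sup_mono fun e he => mem_support_sum.2 ⟨i, hi, he⟩

lemma degreeOf_le_mul_left (n : ℕ) {f g : MvPolynomial ℕ ℕ} (hf : f ≠ 0) (hg : g ≠ 0) :
    degreeOf n f ≤ degreeOf n (f * g) := by
  rw [degreeOf_mul_eq hf hg]
  omega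

lemma degreeOf_le_mul_right (n : ℕ) {f g : MvPolynomial ℕ ℕ} (hf : f ≠ 0) (hg : g ≠ 0) :
    degreeOf n g ≤ degreeOf n (f * g) := by
  rw [degreeOf_mul_eq hf hg]
  omega

lemma degreeOf_ne_zero_iff {n : ℕ} {f : MvPolynomial ℕ ℕ} :
    degreeOf n f ≠ 0 ↔ ∃ m ∈ f.support, m n ≠ 0 := by
  rw [degreeOf_eq_sup]
  constructor
  · intro h
    by_contra hcon
    push Not at hcon
    apply h
    rw [← Nat.bot_eq_zero, Finset.sup_eq_bot_iff]
    intro m hm
    exact hcon m hm
  · rintro ⟨m, hm, h⟩ h0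
    have := Finset.le_sup (f := fun m : ℕ →₀ ℕ => m n) hm
    have h1 : m n ≤ _ := this
    rw [h0] at h1
    omega

lemma degreeOf_eq_zero_of_notMem {n : ℕ} {f : MvPolynomial ℕ ℕ} (h : n ∉ f.vars) :
    degreeOf n f = 0 := by
  classical
  by_contra h1
  obtain ⟨m, hm, hmn⟩ := degreeOf_ne_zero_iff.1 h1
  exact h ((mem_vars_iff_mem_support n).2 ⟨m, hm, by simpa using hmn⟩)

lemma degreeOf_ne_zero_of_mem {n : ℕ} {f : MvPolynomial ℕ ℕ} (h : n ∈ f.vars) :
    degreeOf n f ≠ 0 := by
  classical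
  obtain ⟨m, hm, hmn⟩ := (mem_vars_iff_mem_support n).1 h
  exact degreeOf_ne_zero_iff.2 ⟨m, hm, by simpa using hmn⟩

lemma add_ne_zero_left {f g : MvPolynomial ℕ ℕ} (hf : f ≠ 0) : f + g ≠ 0 := by
  obtain ⟨m, hm⟩ := (support_nonempty (p := f)).2 hf
  intro h
  have := (mem_support_add (g := g)).2 (Or.inl hm)
  rw [h] at this
  simp at this

lemma sum_ne_zero {ι : Type*} {s : Finset ι} {f : ι → MvPolynomial ℕ ℕ} {i : ι} (hi : i ∈ s)
    (hf : f i ≠ 0) : ∑ i ∈ s, f i ≠ 0 := by
  obtain ⟨m, hm⟩ := (support_nonempty (p := f i)).2 hf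
  intro h
  have := mem_support_sum.2 ⟨i, hi, hm⟩
  rw [h] at this
  simp at this

lemma P_mono {d e : ℕ∞} (h : d ≤ e) : P d ⊆ P e := fun _ hf => ⟨hf.1, hf.2.1, fun n => (hf.2.2 n).trans h⟩

lemma mem_P_nat {d : ℕ} {f : MvPolynomial ℕ ℕ} :
    f ∈ P d ↔ f ≠ 0 ∧ constantCoeff f = 0 ∧ ∀ n : ℕ, degreeOf n f ≤ d := by
  unfold P
  simp

lemma P_add {d : ℕ} {f g : MvPolynomial ℕ ℕ} (hf : f ∈ P d) (hg : g ∈ P d) : f + g ∈ P d := by
  rw [mem_P_nat] at *
  exact ⟨add_ne_zero_left hf.1, by rw [map_add, hf.2.1, hg.2.1],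
    fun n => (degreeOf_add_le _ _ _).trans (max_le (hf.2.2 n) (hg.2.2 n))⟩

lemma P_sum {ι : Type*} {d : ℕ} {s : Finset ι} (hs : s.Nonempty) {f : ι → MvPolynomial ℕ ℕ}
    (hf : ∀ i ∈ s, f i ∈ P d) : ∑ i ∈ s, f i ∈ P d := by
  classical
  induction hs using Finset.Nonempty.cons_induction with
  | singleton a => simpa using hf
  | cons a s ha hs ih =>
    rw [Finset.sum_cons]
    exact P_add (hf a (Finset.mem_cons_self _ _)) (ih fun i hi => hf i (Finset.mem_cons_of_mem hi))

lemma P_X {d : ℕ} (hd : 1 ≤ d) (i : ℕ) : (X i : MvPolynomial ℕ ℕ) ∈ P d := by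
  rw [mem_P_nat]
  refine ⟨X_ne_zero _, by simp, fun n => ?_⟩
  rw [degreeOf_X]
  split_ifs <;> omega

/-- parts of an element of `P d` -/
lemma P_of_add_left {d : ℕ} {f g : MvPolynomial ℕ ℕ} (hf : f ≠ 0) (h : f + g ∈ P d) : f ∈ P d := by
  rw [mem_P_nat] at *
  refine ⟨hf, ?_, fun n => (degreeOf_le_add_left n f g).trans (h.2.2 n)⟩
  have := h.2.1
  rw [map_add] at this
  omega

/-! ### The negative side -/

/-- products of two polynomials with zero constant term -/
def Red (f : MvPolynomial ℕ ℕ) : Prop :=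
  ∃ b c : MvPolynomial ℕ ℕ, constantCoeff b = 0 ∧ constantCoeff c = 0 ∧ f = b * c

lemma exists_apply_ne {f : MvPolynomial ℕ ℕ} (h : constantCoeff f = 0) {m : ℕ →₀ ℕ}
    (hm : m ∈ f.support) : ∃ s, m s ≠ 0 := by
  by_contra hcon
  push Not at hcon
  have : m = 0 := Finsupp.ext hcon
  rw [this, MvPolynomial.mem_support_iff] at hm
  exact hm h

lemma dominate {N n : ℕ} (f : Fin N → MvPolynomial ℕ ℕ)
    (hf : ∀ k, f k ≠ 0 ∧ constantCoeff (f k) = 0)
    (hdeg : ∀ s, (Finset.univ.filter fun k => degreeOf s (f k) ≠ 0).card ≤ n)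
    (S : Finset (Fin N)) (hS : S.Nonempty) (hred : Red (∑ k ∈ S, f k)) :
    ∃ T ⊆ S, T.card ≤ 2 * n ∧ ∀ k ∈ S, ∀ s, degreeOf s (f k) ≠ 0 → ∃ t ∈ T, degreeOf s (f t) ≠ 0 := by
  classical
  obtain ⟨b, c, hb, hc, hbc⟩ := hred
  obtain ⟨k0, hk0⟩ := hS
  have hF : ∑ k ∈ S, f k ≠ 0 := sum_ne_zero hk0 (hf k0).1
  have hb0 : b ≠ 0 := fun h => hF (by rw [hbc, h, zero_mul])
  have hc0 : c ≠ 0 := fun h => hF (by rw [hbc, h, mul_zero])
  obtain ⟨b0, hb0m⟩ := (support_nonempty (p := b)).2 hb0
  obtain ⟨c0, hc0m⟩ := (support_nonempty (p := c)).2 hc0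
  obtain ⟨β, hβ⟩ := exists_apply_ne hb hb0m
  obtain ⟨γ, hγ⟩ := exists_apply_ne hc hc0m
  refine ⟨(S.filter fun k => ∀ s, b0 s ≠ 0 → degreeOf s (f k) ≠ 0) ∪
    (S.filter fun k => ∀ s, c0 s ≠ 0 → degreeOf s (f k) ≠ 0), ?_, ?_, ?_⟩
  · exact Finset.union_subset (Finset.filter_subset _ _) (Finset.filter_subset _ _)
  · refine (Finset.card_union_le _ _).trans ?_
    have h1 : (S.filter fun k => ∀ s, b0 s ≠ 0 → degreeOf s (f k) ≠ 0).card ≤ n := by
      refine le_trans (Finset.card_le_card fun k hk => ?_) (hdeg β)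
      rw [Finset.mem_filter] at hk ⊢
      exact ⟨Finset.mem_univ _, hk.2 β hβ⟩
    have h2 : (S.filter fun k => ∀ s, c0 s ≠ 0 → degreeOf s (f k) ≠ 0).card ≤ n := by
      refine le_trans (Finset.card_le_card fun k hk => ?_) (hdeg γ)
      rw [Finset.mem_filter] at hk ⊢
      exact ⟨Finset.mem_univ _, hk.2 γ hγ⟩
    omega
  · intro k hk s hs
    obtain ⟨m, hm, hms⟩ := degreeOf_ne_zero_iff.1 hs
    have hmF : m ∈ (b * c).support := by
      rw [← hbc]
      exact mem_support_sum.2 ⟨k, hk, hm⟩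
    obtain ⟨b', hb', c', hc', rfl⟩ := mem_support_mul.1 hmF
    rw [Finsupp.add_apply] at hms
    by_cases hbs : b' s = 0
    · have hcs : c' s ≠ 0 := by omega
      have h1 : b0 + c' ∈ (∑ k ∈ S, f k).support := by
        rw [hbc]
        exact mem_support_mul.2 ⟨b0, hb0m, c', hc', rfl⟩
      obtain ⟨t, htS, ht⟩ := mem_support_sum.1 h1
      refine ⟨t, ?_, degreeOf_ne_zero_iff.2 ⟨_, ht, by rw [Finsupp.add_apply]; omega⟩⟩
      rw [Finset.mem_union, Finset.mem_filter, Finset.mem_filter]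
      left
      refine ⟨htS, fun s' hs' => degreeOf_ne_zero_iff.2 ⟨_, ht, by rw [Finsupp.add_apply]; omega⟩⟩
    · have h1 : b' + c0 ∈ (∑ k ∈ S, f k).support := by
        rw [hbc]
        exact mem_support_mul.2 ⟨b', hb', c0, hc0m, rfl⟩
      obtain ⟨t, htS, ht⟩ := mem_support_sum.1 h1
      refine ⟨t, ?_, degreeOf_ne_zero_iff.2 ⟨_, ht, by rw [Finsupp.add_apply]; omega⟩⟩
      rw [Finset.mem_union, Finset.mem_filter, Finset.mem_filter]
      right
      refine ⟨htS, fun s' hs' => degreeOf_ne_zero_iff.2 ⟨_, ht, by rw [Finsupp.add_apply]; omega⟩⟩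

/-- If every variable occurs in at most `n` of the polynomials `f k` and all their subsums are
products of two polynomials without constant term, then there are at most `2 n²` of them. -/
lemma few {N n : ℕ} (f : Fin N → MvPolynomial ℕ ℕ)
    (hf : ∀ k, f k ≠ 0 ∧ constantCoeff (f k) = 0)
    (hdeg : ∀ s, (Finset.univ.filter fun k => degreeOf s (f k) ≠ 0).card ≤ n)
    (hred : ∀ S : Finset (Fin N), S.Nonempty → Red (∑ k ∈ S, f k)) : N ≤ 2 * n * n := by
  classical
  by_contra hN
  push Not at hN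
  have chain : ∀ j ≤ n, ∃ S : Finset (Fin N), N ≤ S.card + 2 * n * j ∧
      ∀ k ∈ S, ∀ s, degreeOf s (f k) ≠ 0 →
        j ≤ (Finset.univ.filter fun l => l ∉ S ∧ degreeOf s (f l) ≠ 0).card := by
    intro j
    induction j with
    | zero =>
      intro _
      exact ⟨Finset.univ, by simp, fun k _ s _ => Nat.zero_le _⟩
    | succ j ih =>
      intro hj
      obtain ⟨S, hS1, hS2⟩ := ih (by omega)
      have hSne : S.Nonempty := by
        rw [← Finset.card_pos]
        have : 2 * n * j ≤ 2 * n * n := Nat.mul_le_mul_left _ (by omega)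
        omega
      obtain ⟨T, hTS, hT, hdom⟩ := dominate f hf hdeg S hSne (hred S hSne)
      refine ⟨S \ T, ?_, ?_⟩
      · have := Finset.card_sdiff_add_card_eq_card hTS
        have h2 : 2 * n * (j + 1) = 2 * n * j + 2 * n := by ring
        omega
      · intro k hk s hs
        obtain ⟨t, ht, hts⟩ := hdom k (Finset.mem_sdiff.1 hk).1 s hs
        have h1 := hS2 k (Finset.mem_sdiff.1 hk).1 s hs
        have h2 : insert t (Finset.univ.filter fun l => l ∉ S ∧ degreeOf s (f l) ≠ 0) ⊆
            Finset.univ.filter fun l => l ∉ S \ T ∧ degreeOf s (f l) ≠ 0 := by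
          intro l hl
          rw [Finset.mem_filter]
          rcases Finset.mem_insert.1 hl with rfl | hl
          · exact ⟨Finset.mem_univ _, fun h => (Finset.mem_sdiff.1 h).2 ht, hts⟩
          · rw [Finset.mem_filter] at hl
            exact ⟨Finset.mem_univ _, fun h => hl.2.1 (Finset.mem_sdiff.1 h).1, hl.2.2⟩
        have h3 := Finset.card_le_card h2
        rw [Finset.card_insert_of_notMem (fun h => (Finset.mem_filter.1 h).2.1 (hTS ht))] at h3
        omega
  obtain ⟨S, hS1, hS2⟩ := chain n le_rfl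
  have hSne : S.Nonempty := by
    rw [← Finset.card_pos]
    omega
  obtain ⟨k, hk⟩ := hSne
  obtain ⟨m, hm⟩ := (support_nonempty (p := f k)).2 (hf k).1
  obtain ⟨s, hs⟩ := exists_apply_ne (hf k).2 hm
  have hks : degreeOf s (f k) ≠ 0 := degreeOf_ne_zero_iff.2 ⟨m, hm, hs⟩
  have h1 := hS2 k hk s hks
  have h2 : insert k (Finset.univ.filter fun l => l ∉ S ∧ degreeOf s (f l) ≠ 0) ⊆
      Finset.univ.filter fun l => degreeOf s (f l) ≠ 0 := by
    intro l hl
    rw [Finset.mem_filter]
    rcases Finset.mem_insert.1 hl with rfl | hl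
    · exact ⟨Finset.mem_univ _, hks⟩
    · exact ⟨Finset.mem_univ _, (Finset.mem_filter.1 hl).2.2⟩
  have h3 := Finset.card_le_card h2
  rw [Finset.card_insert_of_notMem (fun h => (Finset.mem_filter.1 h).2.1 hk)] at h3
  have := hdeg s
  omega

/-! ### The positive side -/

/-- elementary symmetric polynomial of degree `m` -/
noncomputable def esym {N : ℕ} {R : Type} [CommSemiring R] (m : ℕ) (f : Fin N → R) : R :=
  ∑ R ∈ (Finset.univ : Finset (Fin N)).powersetCard m, ∏ k ∈ R, f k

lemma degreeOf_prod_le_esym {N : ℕ} (m : ℕ) (f : Fin N → MvPolynomial ℕ ℕ) (R : Finset (Fin N))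
    (hR : R.card = m) (s : ℕ) : degreeOf s (∏ k ∈ R, f k) ≤ degreeOf s (esym m f) :=
  degreeOf_le_sum s _ (fun R : Finset (Fin N) => ∏ k ∈ R, f k)
    (Finset.mem_powersetCard.2 ⟨Finset.subset_univ _, hR⟩)

lemma degreeOf_prod_eq' {ι : Type*} (s : ℕ) (R : Finset ι) (f : ι → MvPolynomial ℕ ℕ)
    (hf : ∀ k, f k ≠ 0) : degreeOf s (∏ k ∈ R, f k) = ∑ k ∈ R, degreeOf s (f k) := by
  classical
  induction R using Finset.induction_on with
  | empty => simp
  | insert a R ha ih =>
    rw [Finset.prod_insert ha, Finset.sum_insert ha,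
      degreeOf_mul_eq (hf a) (Finset.prod_ne_zero_iff.2 fun k _ => hf k), ih]

lemma degreeOf_le_esym {N m : ℕ} (hm : 1 ≤ m) (hN : m ≤ N) (f : Fin N → MvPolynomial ℕ ℕ)
    (hf : ∀ k, f k ≠ 0) (k : Fin N) (s : ℕ) : degreeOf s (f k) ≤ degreeOf s (esym m f) := by
  classical
  obtain ⟨R, h1, -, h2⟩ := Finset.exists_subsuperset_card_eq
    (Finset.subset_univ ({k} : Finset (Fin N))) (by simpa using hm) (by simpa using hN)
  refine le_trans ?_ (degreeOf_prod_le_esym m f R h2 s)
  rw [degreeOf_prod_eq' s R f hf]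
  exact Finset.single_le_sum (f := fun k => degreeOf s (f k)) (fun _ _ => Nat.zero_le _)
    (h1 (Finset.mem_singleton_self k))

lemma P_X_mul {m : ℕ} (hm : 1 ≤ m) {f : MvPolynomial ℕ ℕ} (hf : f ∈ P m) {p : ℕ}
    (hp : degreeOf p f = 0) : X p * f ∈ P m := by
  rw [mem_P_nat] at *
  refine ⟨mul_ne_zero (X_ne_zero _) hf.1, by simp, fun n => ?_⟩
  refine (degreeOf_mul_le _ _ _).trans ?_
  rw [degreeOf_X]
  have := hf.2.2 n
  split_ifs with h
  · subst h
    omega
  · omega

/-- admissible triples -/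
def Adm (D u g t : MvPolynomial ℕ ℕ) : Prop :=
  (∃ p, degreeOf p u ≠ 0 ∧ degreeOf p g = 0 ∧ degreeOf p t = 0 ∧ degreeOf p D = 0) ∧
  (∃ q, degreeOf q g ≠ 0 ∧ degreeOf q D = 0) ∧
  (∃ s, degreeOf s t ≠ 0 ∧ degreeOf s u = 0 ∧ degreeOf s g = 0 ∧ degreeOf s D = 0)

/-- the colours in `Q` are avoided above `D` -/
def Avoid {r : ℕ} (m : ℕ) (c : MvPolynomial ℕ ℕ → Fin r) (Q : Finset (Fin r))
    (D : MvPolynomial ℕ ℕ) : Prop :=
  ∀ u g t : MvPolynomial ℕ ℕ, u ∈ P m → g ∈ P m → t ∈ P m → Adm D u g t →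
    u * (g * D + t) ∈ P m → c (u * (g * D + t)) ∉ Q

/-- a monochromatic copy with distinct entries and distinct values -/
def HasCopy {r : ℕ} (m N : ℕ) (c : MvPolynomial ℕ ℕ → Fin r) : Prop :=
  ∃ (f : Fin N → MvPolynomial ℕ ℕ) (u g t : MvPolynomial ℕ ℕ) (χ : Fin r),
    (∀ k, f k ∈ P m) ∧ u ∈ P m ∧ g ∈ P m ∧ t ∈ P m ∧ u * (g * esym m f + t) ∈ P m ∧
    (∀ S : Finset (Fin N), S.Nonempty → c (∑ k ∈ S, f k) = χ) ∧
    c (u * (g * esym m f + t)) = χ ∧
    Function.Injective f ∧ (∀ k, u ≠ f k ∧ g ≠ f k ∧ t ≠ f k) ∧ u ≠ g ∧ u ≠ t ∧ g ≠ t ∧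
    (∀ S S' : Finset (Fin N), ∑ k ∈ S, f k = ∑ k ∈ S', f k → S = S') ∧
    ∀ S : Finset (Fin N), u * (g * esym m f + t) ≠ ∑ k ∈ S, f k

section step

variable {r m N : ℕ}

/-- the base block -/
noncomputable def blk (y : MvPolynomial ℕ ℕ × ℕ × ℕ) : MvPolynomial ℕ ℕ := X y.2.1 * y.1 + X y.2.2

/-- its variables -/
noncomputable def nu (y : MvPolynomial ℕ ℕ × ℕ × ℕ) : Finset ℕ := insert y.2.1 (insert y.2.2 y.1.vars)

lemma degreeOf_blk {y : MvPolynomial ℕ ℕ × ℕ × ℕ} {s : ℕ} (hs : s ∉ nu y) :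
    degreeOf s (blk y) = 0 := by
  unfold nu at hs
  rw [Finset.mem_insert, Finset.mem_insert] at hs
  push Not at hs
  obtain ⟨h1, h2, h3⟩ := hs
  have h4 := degreeOf_eq_zero_of_notMem h3
  have h5 := degreeOf_add_le s (X y.2.1 * y.1) (X y.2.2 : MvPolynomial ℕ ℕ)
  have h6 := degreeOf_mul_le s (X y.2.1) y.1
  rw [degreeOf_X, if_neg h1] at h6
  rw [degreeOf_X, if_neg h2] at h5
  unfold blk
  omega

lemma step_aux (hm : 1 ≤ m) (hN : m ≤ N) (c : MvPolynomial ℕ ℕ → Fin r) (hno : ¬ HasCopy m N c)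
    (Q : Finset (Fin r))
    (hE : ∀ X : Finset ℕ, ∃ D ∈ P m, (∀ s ∈ X, degreeOf s D = 0) ∧ Avoid m c Q D)
    (X₀ : Finset ℕ) :
    ∃ χ ∉ Q, ∃ D ∈ P m, (∀ s ∈ X₀, degreeOf s D = 0) ∧ Avoid m c (insert χ Q) D := by
  classical
  obtain ⟨v, hv⟩ := Infinite.exists_notMem_finset X₀
  obtain ⟨y, hy1, hy2, hy3⟩ := choose_seq nu
    (fun y => y.1 ∈ P m ∧ Avoid m c Q y.1 ∧ degreeOf y.2.1 y.1 = 0 ∧ degreeOf y.2.2 y.1 = 0 ∧
      y.2.1 ≠ y.2.2) (fun Y => by
      obtain ⟨D, hD1, hD2, hD3⟩ := hE Y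
      obtain ⟨w, hw⟩ := Infinite.exists_notMem_finset (Y ∪ D.vars)
      obtain ⟨x, hx⟩ := Infinite.exists_notMem_finset (insert w (Y ∪ D.vars))
      rw [Finset.mem_insert, Finset.mem_union] at hx
      rw [Finset.mem_union] at hw
      push Not at hx hw
      refine ⟨(D, w, x), ⟨hD1, hD3, degreeOf_eq_zero_of_notMem hw.2,
        degreeOf_eq_zero_of_notMem hx.2.2, fun h => hx.1 h.symm⟩, ?_⟩
      rw [Finset.disjoint_left]
      intro s hs hsY
      unfold nu at hs
      rw [Finset.mem_insert, Finset.mem_insert] at hs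
      rcases hs with rfl | rfl | hs
      · exact hw.1 hsY
      · exact hx.2.1 hsY
      · exact degreeOf_ne_zero_of_mem hs (hD2 s hsY)) (insert v X₀)
  -- variables of the blocks
  have hvν : ∀ i, v ∉ nu (y i) := fun i h =>
    Finset.disjoint_left.1 (hy2 i) h (Finset.mem_insert_self _ _)
  have hXν : ∀ i, ∀ s ∈ X₀, s ∉ nu (y i) := fun i s hs h =>
    Finset.disjoint_left.1 (hy2 i) h (Finset.mem_insert_of_mem hs)
  have hvb : ∀ i, degreeOf v (blk (y i)) = 0 := fun i => degreeOf_blk (hvν i)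
  have hblkP : ∀ i, blk (y i) ∈ P m := fun i =>
    P_add (P_X_mul hm (hy1 i).1 (hy1 i).2.2.1) (P_X hm _)
  obtain ⟨A, χ, hA1, hA2, hA3⟩ := finite_unions fun S => c (X v * ∑ i ∈ S, blk (y i))
  have hdegsum : ∀ (B : Finset ℕ) (s : ℕ), (∀ i ∈ B, degreeOf s (blk (y i)) = 0) →
      degreeOf s (∑ i ∈ B, blk (y i)) = 0 := by
    intro B s h
    have := degreeOf_sum_le s B fun i => blk (y i)
    refine Nat.eq_zero_of_le_zero (this.trans (Finset.sup_le fun i hi => ?_))
    exact (h i hi).le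
  let b : ℕ → MvPolynomial ℕ ℕ := fun k => X v * ∑ i ∈ A k, blk (y i)
  have hUP : ∀ k, ∑ i ∈ A k, blk (y i) ∈ P m := fun k => P_sum (hA1 k) fun i _ => hblkP i
  have hbP : ∀ k, b k ∈ P m := fun k => P_X_mul hm (hUP k) (hdegsum _ _ fun i _ => hvb i)
  have hb0 : ∀ k, b k ≠ 0 := fun k => (hbP k).1
  have hbsum : ∀ S : Finset ℕ, ∑ k ∈ S, b k = X v * ∑ i ∈ S.biUnion A, blk (y i) := by
    intro S
    rw [Finset.sum_biUnion (fun k _ l _ hkl => hA2 k l hkl), Finset.mul_sum]
  have hcol : ∀ S : Finset ℕ, S.Nonempty → c (∑ k ∈ S, b k) = χ := fun S hS => by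
    rw [hbsum]
    exact hA3 S hS
  -- the degrees of `b k`
  have hdegb : ∀ k s, degreeOf s (b k) = (if s = v then 1 else 0) +
      degreeOf s (∑ i ∈ A k, blk (y i)) := by
    intro k s
    rw [degreeOf_mul_eq (X_ne_zero _) (hUP k).1, degreeOf_X]
  have hbv : ∀ k, degreeOf v (b k) = 1 := fun k => by
    rw [hdegb, if_pos rfl, hdegsum _ _ fun i _ => hvb i]
  have hloc : ∀ k s, s ≠ v → degreeOf s (b k) ≠ 0 → ∃ i ∈ A k, s ∈ nu (y i) := by
    intro k s hs h
    rw [hdegb, if_neg hs, zero_add] at h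
    by_contra hcon
    push Not at hcon
    exact h (hdegsum _ _ fun i hi => degreeOf_blk (hcon i hi))
  have hloc2 : ∀ k l s, k ≠ l → s ≠ v → degreeOf s (b k) ≠ 0 → degreeOf s (b l) = 0 := by
    intro k l s hkl hs h
    by_contra h2
    obtain ⟨i, hi, hsi⟩ := hloc k s hs h
    obtain ⟨j, hj, hsj⟩ := hloc l s hs h2
    have hij : i ≠ j := fun e => Finset.disjoint_left.1 (hA2 k l hkl) hi (e ▸ hj)
    exact Finset.disjoint_left.1 (hy3 i j hij) hsi hsj
  let f : Fin N → MvPolynomial ℕ ℕ := fun k => b k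
  have hf0 : ∀ k, f k ≠ 0 := fun k => hb0 k
  have hprodP : ∀ R : Finset (Fin N), R.card = m → ∏ k ∈ R, f k ∈ P m := by
    intro R hR
    rw [mem_P_nat]
    refine ⟨Finset.prod_ne_zero_iff.2 fun k _ => hf0 k, ?_, fun s => ?_⟩
    · obtain ⟨k, hk⟩ : R.Nonempty := by
        rw [← Finset.card_pos]
        omega
      rw [map_prod]
      exact Finset.prod_eq_zero hk (hbP k).2.1
    · rw [degreeOf_prod_eq' s R f hf0]
      by_cases hs : s = v
      · subst hs
        have h1 : ∀ k ∈ R, degreeOf s (f k) = 1 := fun k _ => hbv k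
        rw [Finset.sum_congr rfl h1]
        simp [hR]
      · by_cases hex : ∃ k ∈ R, degreeOf s (f k) ≠ 0
        · obtain ⟨k, hk, hks⟩ := hex
          rw [Finset.sum_eq_single_of_mem k hk fun l _ hl =>
            hloc2 k l s (fun e => hl (Fin.ext e.symm)) hs hks]
          exact (mem_P_nat.1 (hbP k)).2.2 s
        · push Not at hex
          rw [Finset.sum_eq_zero hex]
          exact Nat.zero_le _
  obtain ⟨R₁, hR₁⟩ : ((Finset.univ : Finset (Fin N)).powersetCard m).Nonempty := by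
    rw [Finset.powersetCard_nonempty]
    simpa using hN
  have hDP : esym m f ∈ P m := P_sum ⟨R₁, hR₁⟩ fun R hR => hprodP R (Finset.mem_powersetCard.1 hR).2
  have hle : ∀ k s, degreeOf s (f k) ≤ degreeOf s (esym m f) := fun k s =>
    degreeOf_le_esym hm hN f hf0 k s
  -- the first block
  obtain ⟨i, hi⟩ := hA1 0
  obtain ⟨hDi, hav, hw, hx, hwx⟩ := hy1 i
  have hNpos : 0 < N := by omega
  have hbi : ∑ j ∈ A 0, blk (y j) = X (y i).2.1 * (y i).1 +
      (X (y i).2.2 + ∑ j ∈ (A 0).erase i, blk (y j)) := by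
    rw [← Finset.add_sum_erase _ _ hi, blk]
    ring
  have hwv : (y i).2.1 ≠ v := fun e => hvν i (by unfold nu; rw [← e]; simp)
  have hxv : (y i).2.2 ≠ v := fun e => hvν i (by unfold nu; rw [← e]; simp)
  have hvD : degreeOf v (y i).1 = 0 := by
    by_contra h
    have h1 := degreeOf_le_mul_right v (X_ne_zero (R := ℕ) (y i).2.1) hDi.1
    have h2 := degreeOf_le_add_left v (X (y i).2.1 * (y i).1) (X (y i).2.2 : MvPolynomial ℕ ℕ)
    have h3 := hvb i
    unfold blk at h3
    omega
  have hvrest : ∀ B : Finset ℕ, degreeOf v (X (y i).2.2 + ∑ j ∈ B, blk (y j)) = 0 := by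
    intro B
    have h1 := degreeOf_add_le v (X (y i).2.2 : MvPolynomial ℕ ℕ) (∑ j ∈ B, blk (y j))
    rw [degreeOf_X, if_neg (fun e => hxv e.symm), hdegsum B v fun i _ => hvb i] at h1
    simpa using h1
  have hrestP : ∀ B : Finset ℕ, X (y i).2.2 + ∑ j ∈ B, blk (y j) ∈ P m := by
    intro B
    rcases B.eq_empty_or_nonempty with rfl | hB
    · rw [Finset.sum_empty, add_zero]
      exact P_X hm _
    · exact P_add (P_X hm _) (P_sum hB fun i _ => hblkP i)
  have hxrest : ∀ B : Finset ℕ, degreeOf (y i).2.2 (X (y i).2.2 + ∑ j ∈ B, blk (y j)) ≠ 0 := by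
    intro B
    have h1 := degreeOf_le_add_left (y i).2.2 (X (y i).2.2 : MvPolynomial ℕ ℕ)
      (∑ j ∈ B, blk (y j))
    rw [degreeOf_X, if_pos rfl] at h1
    omega
  have hχQ : χ ∉ Q := by
    have h0 := hcol {0} (Finset.singleton_nonempty _)
    rw [Finset.sum_singleton] at h0
    have hb0e : b 0 = X v * (X (y i).2.1 * (y i).1 +
      (X (y i).2.2 + ∑ j ∈ (A 0).erase i, blk (y j))) := by
      show X v * _ = _
      rw [hbi]
    rw [← h0, hb0e]
    refine hav (X v) (X (y i).2.1) _ (P_X hm _) (P_X hm _) (hrestP _) ⟨⟨v, ?_, ?_, ?_, hvD⟩,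
      ⟨(y i).2.1, ?_, hw⟩, ⟨(y i).2.2, hxrest _, ?_, ?_, hx⟩⟩ ?_
    · rw [degreeOf_X, if_pos rfl]
      exact one_ne_zero
    · rw [degreeOf_X, if_neg (fun e => hwv e.symm)]
    · exact hvrest _
    · rw [degreeOf_X, if_pos rfl]
      exact one_ne_zero
    · rw [degreeOf_X, if_neg hxv]
    · rw [degreeOf_X, if_neg (fun e => hwx e.symm)]
    · rw [← hb0e]
      exact hbP 0
  refine ⟨χ, hχQ, esym m f, hDP, ?_, ?_⟩
  · -- the variables of `esym m f` avoid `X₀`
    intro s hs
    have hsv : s ≠ v := fun e => hv (e ▸ hs)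
    have h1 : ∀ k, degreeOf s (f k) = 0 := by
      intro k
      by_contra h
      obtain ⟨j, -, hj⟩ := hloc k s hsv h
      exact hXν j s hs hj
    have h2 := degreeOf_sum_le s ((Finset.univ : Finset (Fin N)).powersetCard m)
      (fun R : Finset (Fin N) => ∏ k ∈ R, f k)
    refine Nat.eq_zero_of_le_zero (h2.trans (Finset.sup_le fun R _ => ?_))
    rw [degreeOf_prod_eq' s R f hf0, Finset.sum_eq_zero fun k _ => h1 k]
  · intro u g t hu hg ht hadm hz hmem
    obtain ⟨⟨p, hp1, hp2, hp3, hp4⟩, ⟨q, hq1, hq2⟩, ⟨s, hs1, hs2, hs3, hs4⟩⟩ := hadm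
    have hD0 : esym m f ≠ 0 := hDP.1
    have hWu : ∀ s, degreeOf s u ≤ degreeOf s (u * (g * esym m f + t)) := fun s =>
      degreeOf_le_mul_left s hu.1 (add_ne_zero_left (mul_ne_zero hg.1 hD0))
    rcases Finset.mem_insert.1 hmem with hcz | hcz
    · -- a monochromatic copy
      refine hno ⟨f, u, g, t, χ, fun k => hbP k, hu, hg, ht, hz, ?_, hcz, ?_, ?_, ?_, ?_, ?_, ?_, ?_⟩
      · intro S hS
        have : ∑ k ∈ S, f k = ∑ k ∈ S.map Fin.valEmbedding, b k := by
          rw [Finset.sum_map]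
          rfl
        rw [this]
        exact hcol _ (by simpa using hS)
      · intro k l hkl
        by_contra hne
        obtain ⟨j, hj⟩ := hA1 k
        have hjk : degreeOf (y j).2.2 (b k) ≠ 0 := by
          have h1 : degreeOf (y j).2.2 (blk (y j)) ≠ 0 := by
            have := degreeOf_le_add_right (y j).2.2 (X (y j).2.1 * (y j).1) (X (y j).2.2)
            rw [degreeOf_X, if_pos rfl] at this
            unfold blk
            omega
          have h2 := degreeOf_le_sum (y j).2.2 (A k) (fun i => blk (y i)) hj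
          rw [hdegb]
          omega
        have hjv : (y j).2.2 ≠ v := fun e => hvν j (by unfold nu; rw [← e]; simp)
        have h3 := hloc2 k l _ (fun e => hne (Fin.ext e)) hjv hjk
        exact hjk ((congrArg (degreeOf (y j).2.2) hkl).trans h3)
      · intro k
        refine ⟨fun e => ?_, fun e => ?_, fun e => ?_⟩
        · have := hle k p
          rw [← e] at this
          omega
        · have := hle k q
          rw [← e] at this
          omega
        · have := hle k s
          rw [← e] at this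
          omega
      · intro e
        rw [e] at hp1
        exact hp1 hp2
      · intro e
        rw [e] at hp1
        exact hp1 hp3
      · intro e
        rw [← e] at hs1
        exact hs1 hs3
      · have key : ∀ S S' : Finset (Fin N), ∑ k ∈ S, f k = ∑ k ∈ S', f k → S ⊆ S' := by
          intro S S' hSS k hk
          by_contra hk'
          obtain ⟨j, hj⟩ := hA1 k
          have hjk : degreeOf (y j).2.2 (f k) ≠ 0 := by
            have h1 : degreeOf (y j).2.2 (blk (y j)) ≠ 0 := by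
              have := degreeOf_le_add_right (y j).2.2 (X (y j).2.1 * (y j).1) (X (y j).2.2)
              rw [degreeOf_X, if_pos rfl] at this
              unfold blk
              omega
            have h2 := degreeOf_le_sum (y j).2.2 (A k) (fun i => blk (y i)) hj
            show degreeOf _ (b k) ≠ 0
            rw [hdegb]
            omega
          have hjv : (y j).2.2 ≠ v := fun e => hvν j (by unfold nu; rw [← e]; simp)
          have h4 := degreeOf_le_sum (y j).2.2 S f hk
          rw [hSS] at h4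
          have h5 := degreeOf_sum_le (y j).2.2 S' f
          have h6 : (S'.sup fun l => degreeOf (y j).2.2 (f l)) = 0 := by
            rw [← Nat.bot_eq_zero, Finset.sup_eq_bot_iff]
            intro l hl
            exact hloc2 k l _ (fun e => hk' (by rw [Fin.ext e]; exact hl)) hjv hjk
          omega
        intro S S' hSS
        exact Finset.Subset.antisymm (key S S' hSS) (key S' S hSS.symm)
      · intro S e
        have h1 := hWu p
        rw [e] at h1
        have h2 := degreeOf_sum_le p S f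
        have h3 : (S.sup fun l => degreeOf p (f l)) = 0 := by
          rw [← Nat.bot_eq_zero, Finset.sup_eq_bot_iff]
          intro l hl
          have := hle l p
          rw [Nat.bot_eq_zero]
          omega
        omega
    · -- the colours in `Q`
      obtain ⟨R, h1, -, h2⟩ := Finset.exists_subsuperset_card_eq
        (Finset.subset_univ ({⟨0, hNpos⟩} : Finset (Fin N))) (by simpa using hm) (by simpa using hN)
      have h0R : (⟨0, hNpos⟩ : Fin N) ∈ R := h1 (Finset.mem_singleton_self _)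
      let Pr := ∏ k ∈ R.erase ⟨0, hNpos⟩, f k
      let G := X v * X (y i).2.1 * Pr
      let G' := X v * (X (y i).2.2 + ∑ j ∈ (A 0).erase i, blk (y j)) * Pr +
        ∑ R' ∈ ((Finset.univ : Finset (Fin N)).powersetCard m).erase R, ∏ k ∈ R', f k
      have hPr : Pr ≠ 0 := Finset.prod_ne_zero_iff.2 fun k _ => hf0 k
      have hG0 : G ≠ 0 := mul_ne_zero (mul_ne_zero (X_ne_zero _) (X_ne_zero _)) hPr
      have hdec : esym m f = G * (y i).1 + G' := by
        unfold esym
        rw [← Finset.add_sum_erase _ _ (Finset.mem_powersetCard.2 ⟨Finset.subset_univ _, h2⟩),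
          ← Finset.mul_prod_erase R f h0R]
        show X v * (∑ j ∈ A 0, blk (y j)) * _ + _ = _
        rw [hbi]
        simp only [G, G', Pr]
        ring
      have hgG : g * G ≠ 0 := mul_ne_zero hg.1 hG0
      have ht' : g * G' + t ≠ 0 := by
        rw [add_comm]
        exact add_ne_zero_left ht.1
      have hz' : u * (g * esym m f + t) = u * ((g * G) * (y i).1 + (g * G' + t)) := by
        rw [hdec]
        ring
      have hdz : ∀ s, degreeOf s ((g * G) * (y i).1 + (g * G' + t)) ≤ m := by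
        intro s
        refine le_trans ?_ ((mem_P_nat.1 hz).2.2 s)
        rw [hz']
        exact degreeOf_le_mul_right s hu.1 (add_ne_zero_left (mul_ne_zero hgG hDi.1))
      have hGle : ∀ s, degreeOf s G ≤ degreeOf s (esym m f) := fun s => by
        rw [hdec]
        exact (degreeOf_le_mul_left s hG0 hDi.1).trans (degreeOf_le_add_left s _ _)
      have hG'le : ∀ s, degreeOf s G' ≤ degreeOf s (esym m f) := fun s => by
        rw [hdec]
        exact degreeOf_le_add_right s _ _
      have hDle : ∀ s, degreeOf s (y i).1 ≤ degreeOf s (esym m f) := fun s => by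
        rw [hdec]
        exact (degreeOf_le_mul_right s hG0 hDi.1).trans (degreeOf_le_add_left s _ _)
      refine hav u (g * G) (g * G' + t) hu ?_ ?_ ⟨⟨p, hp1, ?_, ?_, ?_⟩, ⟨q, ?_, ?_⟩,
        ⟨s, ?_, hs2, ?_, ?_⟩⟩ ?_ ?_
      · rw [mem_P_nat]
        refine ⟨hgG, by rw [map_mul, hg.2.1, zero_mul], fun s => ?_⟩
        exact ((degreeOf_le_mul_left s hgG hDi.1).trans (degreeOf_le_add_left s _ _)).trans (hdz s)
      · rw [mem_P_nat]
        refine ⟨ht', by rw [map_add, map_mul, hg.2.1, zero_mul, ht.2.1], fun s => ?_⟩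
        exact (degreeOf_le_add_right s _ _).trans (hdz s)
      · have a1 := degreeOf_mul_le p g G
        have a2 := hGle p
        omega
      · have a1 := degreeOf_add_le p (g * G') t
        have a3 := degreeOf_mul_le p g G'
        have a2 := hG'le p
        omega
      · have a2 := hDle p
        omega
      · have a1 := degreeOf_le_mul_left q hg.1 hG0
        omega
      · have a2 := hDle q
        omega
      · have a1 := degreeOf_le_add_right s (g * G') t
        omega
      · have a1 := degreeOf_mul_le s g G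
        have a2 := hGle s
        omega
      · have a2 := hDle s
        omega
      · rw [← hz']
        exact hz
      · rw [← hz']
        exact hcz

lemma step (hm : 1 ≤ m) (hN : m ≤ N) (c : MvPolynomial ℕ ℕ → Fin r) (hno : ¬ HasCopy m N c)
    (Q : Finset (Fin r))
    (hE : ∀ X : Finset ℕ, ∃ D ∈ P m, (∀ s ∈ X, degreeOf s D = 0) ∧ Avoid m c Q D) :
    ∃ χ ∉ Q, ∀ X : Finset ℕ, ∃ D ∈ P m, (∀ s ∈ X, degreeOf s D = 0) ∧
      Avoid m c (insert χ Q) D := by
  classical
  by_contra hcon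
  push Not at hcon
  have h : ∀ χ : Fin r, ∃ Y : Finset ℕ, χ ∉ Q → ∀ D ∈ P m, (∀ s ∈ Y, degreeOf s D = 0) →
      ¬ Avoid m c (insert χ Q) D := by
    intro χ
    by_cases hχ : χ ∈ Q
    · exact ⟨∅, fun h => absurd hχ h⟩
    · obtain ⟨Y, hY⟩ := hcon χ hχ
      exact ⟨Y, fun _ => hY⟩
  choose Y hY using h
  obtain ⟨χ, hχ, D, hD, hs, hav⟩ := step_aux hm hN c hno Q hE (Finset.univ.biUnion Y)
  exact hY χ hχ D hD (fun s hsY => hs s (Finset.mem_biUnion.2 ⟨χ, Finset.mem_univ _, hsY⟩)) hav

lemma hasCopy (hm : 1 ≤ m) (hN : m ≤ N) (c : MvPolynomial ℕ ℕ → Fin r) : HasCopy m N c := by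
  classical
  by_contra hno
  have key : ∀ j ≤ r, ∃ Q : Finset (Fin r), Q.card = j ∧ ∀ X : Finset ℕ, ∃ D ∈ P m,
      (∀ s ∈ X, degreeOf s D = 0) ∧ Avoid m c Q D := by
    intro j
    induction j with
    | zero =>
      intro _
      refine ⟨∅, rfl, fun Y => ?_⟩
      obtain ⟨x, hx⟩ := Infinite.exists_notMem_finset Y
      refine ⟨X x, P_X hm x, fun s hs => ?_, fun u g t _ _ _ _ _ => Finset.notMem_empty _⟩
      rw [degreeOf_X, if_neg]
      rintro rfl
      exact hx hs
    | succ j ih =>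
      intro hj
      obtain ⟨Q, hQ, hE⟩ := ih (by omega)
      obtain ⟨χ, hχ, h⟩ := step hm hN c hno Q hE
      exact ⟨insert χ Q, by rw [Finset.card_insert_of_notMem hχ, hQ], h⟩
  obtain ⟨Q, hQ, hE⟩ := key r le_rfl
  have hQu : Q = Finset.univ := by
    rw [← Finset.card_eq_iff_eq_univ, hQ, Fintype.card_fin]
  obtain ⟨D, hD, -, hav⟩ := hE ∅
  obtain ⟨p, hp⟩ := Infinite.exists_notMem_finset D.vars
  obtain ⟨q, hq⟩ := Infinite.exists_notMem_finset (insert p D.vars)
  obtain ⟨s, hs⟩ := Infinite.exists_notMem_finset (insert q (insert p D.vars))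
  rw [Finset.mem_insert] at hq
  rw [Finset.mem_insert, Finset.mem_insert] at hs
  push Not at hq hs
  have hpD := degreeOf_eq_zero_of_notMem hp
  have hqD := degreeOf_eq_zero_of_notMem hq.2
  have hsD := degreeOf_eq_zero_of_notMem hs.2.2
  have h1 : X q * D + X s ∈ P m := P_add (P_X_mul hm hD hqD) (P_X hm s)
  have h2 : degreeOf p (X q * D + X s : MvPolynomial ℕ ℕ) = 0 := by
    have a1 := degreeOf_add_le p (X q * D) (X s : MvPolynomial ℕ ℕ)
    have a2 := degreeOf_mul_le p (X q) D
    rw [degreeOf_X, if_neg (fun e => hq.1 e.symm)] at a2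
    rw [degreeOf_X, if_neg (fun e => hs.2.1 e.symm)] at a1
    omega
  refine hav (X p) (X q) (X s) (P_X hm _) (P_X hm _) (P_X hm _) ⟨⟨p, ?_, ?_, ?_, hpD⟩,
    ⟨q, ?_, hqD⟩, ⟨s, ?_, ?_, ?_, hsD⟩⟩ (P_X_mul hm h1 h2) (by rw [hQu]; exact Finset.mem_univ _)
  · rw [degreeOf_X, if_pos rfl]; exact one_ne_zero
  · rw [degreeOf_X, if_neg (fun e => hq.1 e.symm)]
  · rw [degreeOf_X, if_neg (fun e => hs.2.1 e.symm)]
  · rw [degreeOf_X, if_pos rfl]; exact one_ne_zero
  · rw [degreeOf_X, if_pos rfl]; exact one_ne_zero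
  · rw [degreeOf_X, if_neg hs.2.1]
  · rw [degreeOf_X, if_neg hs.1]

end step

/-! ### The pattern -/

/-- The pattern. -/
noncomputable def pat (n N : ℕ) :
    {S : Finset (Fin N) // S.Nonempty} ⊕ Unit → MvPolynomial (Fin N ⊕ Fin 3) ℕ
  | Sum.inl S => ∑ k ∈ S.1, X (Sum.inl k)
  | Sum.inr _ => X (Sum.inr 0) *
      (X (Sum.inr 1) * esym (n + 1) (fun k => X (Sum.inl k)) + X (Sum.inr 2))

lemma aeval_inl (n N : ℕ) (a : Fin N ⊕ Fin 3 → MvPolynomial ℕ ℕ)
    (S : {S : Finset (Fin N) // S.Nonempty}) :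
    aeval a (pat n N (Sum.inl S)) = ∑ k ∈ S.1, a (Sum.inl k) := by
  simp [pat]

lemma aeval_inr (n N : ℕ) (a : Fin N ⊕ Fin 3 → MvPolynomial ℕ ℕ) (x : Unit) :
    aeval a (pat n N (Sum.inr x)) = a (Sum.inr 0) *
      (a (Sum.inr 1) * esym (n + 1) (fun k => a (Sum.inl k)) + a (Sum.inr 2)) := by
  simp [pat, esym]

lemma esym_ne_zero {N m : ℕ} (hN : m ≤ N) (f : Fin N → MvPolynomial ℕ ℕ) (hf : ∀ k, f k ≠ 0) :
    esym m f ≠ 0 := by
  obtain ⟨R₁, hR₁⟩ : ((Finset.univ : Finset (Fin N)).powersetCard m).Nonempty := by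
    rw [Finset.powersetCard_nonempty]
    simpa using hN
  exact sum_ne_zero hR₁ (Finset.prod_ne_zero_iff.2 fun k _ => hf k)

/-- No monochromatic copy in `P n` when the colour says whether a polynomial is a product of two
polynomials without constant term. -/
lemma no_copy {n : ℕ} (hn : 1 ≤ n) (a : Fin (2 * n * n + 1) ⊕ Fin 3 → MvPolynomial ℕ ℕ)
    (ha : IsCopy (pat n (2 * n * n + 1)) (P n) a)
    (h : ∀ S : {S : Finset (Fin (2 * n * n + 1)) // S.Nonempty},
      Red (aeval a (pat n (2 * n * n + 1) (Sum.inr ()))) →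
        Red (aeval a (pat n (2 * n * n + 1) (Sum.inl S)))) : False := by
  classical
  have hN : n + 1 ≤ 2 * n * n + 1 := by nlinarith
  have ha1 : ∀ t, a t ≠ 0 ∧ constantCoeff (a t) = 0 := fun t =>
    ⟨(ha.1 t).1, (ha.1 t).2.1⟩
  have hW := mem_P_nat.1 (ha.2 (Sum.inr ()))
  rw [aeval_inr] at hW
  have hE0 : esym (n + 1) (fun k => a (Sum.inl k)) ≠ 0 := esym_ne_zero hN _ fun k => (ha1 _).1
  have hred : Red (aeval a (pat n (2 * n * n + 1) (Sum.inr ()))) := by
    rw [aeval_inr]
    exact ⟨_, _, (ha1 _).2, by rw [map_add, map_mul, (ha1 _).2, (ha1 _).2, zero_mul, zero_add], rfl⟩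
  have hle : ∀ s, degreeOf s (esym (n + 1) (fun k => a (Sum.inl k))) ≤ n := by
    intro s
    refine le_trans ?_ (hW.2.2 s)
    refine le_trans ?_ (degreeOf_le_mul_right s (ha1 _).1
      (add_ne_zero_left (mul_ne_zero (ha1 _).1 hE0)))
    exact (degreeOf_le_mul_right s (ha1 _).1 hE0).trans (degreeOf_le_add_left s _ _)
  have := few (N := 2 * n * n + 1) (n := n) (fun k => a (Sum.inl k)) (fun k => ha1 _) (fun s => by
    by_contra hcon
    push Not at hcon
    obtain ⟨R, hR1, hR2⟩ := Finset.exists_subset_card_eq (Nat.succ_le_of_lt hcon)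
    have h1 := (degreeOf_prod_le_esym (n + 1) (fun k => a (Sum.inl k)) R hR2 s).trans (hle s)
    rw [degreeOf_prod_eq' s R _ fun k => (ha1 _).1] at h1
    have h2 : ∑ k ∈ R, 1 ≤ ∑ k ∈ R, degreeOf s (a (Sum.inl k)) :=
      Finset.sum_le_sum fun k hk => by
        have := (Finset.mem_filter.1 (hR1 hk)).2
        omega
    rw [Finset.sum_const, smul_eq_mul, mul_one] at h2
    omega) (fun S hS => by
      have := h ⟨S, hS⟩ hred
      rwa [aeval_inl] at this)
  omega

lemma appears {n N : ℕ} : ∃ a, IsCopy (pat n N) (P (1 : ℕ)) a := by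
  classical
  have hX : ∀ k, (X k : MvPolynomial ℕ ℕ) ∈ P (1 : ℕ) := fun k => P_X le_rfl k
  refine ⟨Sum.elim (fun k => X (k : ℕ)) fun j => X (N + (j : ℕ)), ?_, ?_⟩
  · rintro (k | j)
    · exact hX _
    · exact hX _
  · rintro (S | x)
    · rw [aeval_inl]
      exact P_sum S.2 fun k _ => hX _
    · rw [aeval_inr]
      simp only [Sum.elim_inl, Sum.elim_inr]
      set E := esym (n + 1) (fun k : Fin N => (X (k : ℕ) : MvPolynomial ℕ ℕ)) with hE
      have hd : ∀ s, degreeOf s E ≤ 1 := by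
        intro s
        have h2 := degreeOf_sum_le s ((Finset.univ : Finset (Fin N)).powersetCard (n + 1))
          (fun R : Finset (Fin N) => ∏ k ∈ R, (X (k : ℕ) : MvPolynomial ℕ ℕ))
        refine h2.trans (Finset.sup_le fun R _ => ?_)
        rw [degreeOf_prod_eq' s R _ fun k => X_ne_zero _]
        simp only [degreeOf_X]
        rw [← Finset.sum_filter, Finset.sum_const, smul_eq_mul, mul_one]
        refine Finset.card_le_one.2 fun k hk l hl => ?_
        rw [Finset.mem_filter] at hk hl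
        exact Fin.ext (hk.2.symm.trans hl.2)
      have hd0 : ∀ s, N ≤ s → degreeOf s E = 0 := by
        intro s hs
        have h2 := degreeOf_sum_le s ((Finset.univ : Finset (Fin N)).powersetCard (n + 1))
          (fun R : Finset (Fin N) => ∏ k ∈ R, (X (k : ℕ) : MvPolynomial ℕ ℕ))
        refine Nat.eq_zero_of_le_zero (h2.trans (Finset.sup_le fun R _ => ?_))
        rw [degreeOf_prod_eq' s R _ fun k => X_ne_zero _]
        simp only [degreeOf_X]
        refine (Finset.sum_eq_zero fun k _ => ?_).le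
        rw [if_neg]
        have := k.2
        omega
      have hgE : ∀ s, degreeOf s (X (N + ((1 : Fin 3) : ℕ)) * E) ≤
          (if s = N + 1 then 1 else 0) + degreeOf s E := fun s => by
        have := degreeOf_mul_le s (X (N + ((1 : Fin 3) : ℕ))) E
        rw [degreeOf_X] at this
        exact this
      have hsum : ∀ s, degreeOf s (X (N + ((1 : Fin 3) : ℕ)) * E + X (N + ((2 : Fin 3) : ℕ))) ≤
          max ((if s = N + 1 then 1 else 0) + degreeOf s E) (if s = N + 2 then 1 else 0) :=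
        fun s => by
          refine (degreeOf_add_le s _ _).trans (max_le_max (hgE s) ?_)
          rw [degreeOf_X]
          exact le_rfl
      rw [mem_P_nat]
      have hne : (X (N + ((1 : Fin 3) : ℕ)) * E + X (N + ((2 : Fin 3) : ℕ)) :
          MvPolynomial ℕ ℕ) ≠ 0 := by
        rw [add_comm]
        exact add_ne_zero_left (X_ne_zero _)
      refine ⟨mul_ne_zero (X_ne_zero _) hne, by simp, fun s => ?_⟩
      rw [degreeOf_mul_eq (X_ne_zero _) hne, degreeOf_X]
      have h1 := hsum s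
      have h2 := hd s
      have h3 := hd0 s
      simp only [Fin.val_zero, add_zero]
      by_cases e0 : s = N
      · rw [if_pos e0]
        rw [if_neg (by omega), if_neg (by omega), h3 (by omega)] at h1
        simpa using h1
      · rw [if_neg e0]
        by_cases e1 : s = N + 1
        · rw [if_pos e1, if_neg (by omega), h3 (by omega)] at h1
          simpa using h1
        · by_cases e2 : s = N + 2
          · rw [if_neg e1, if_pos e2, h3 (by omega)] at h1
            simpa using h1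
          · rw [if_neg e1, if_neg e2] at h1
            simp only [zero_add] at h1 ⊢
            exact h1.trans (max_le h2 (Nat.zero_le _))

lemma pr_distinct {n N : ℕ} (hN : n + 1 ≤ N) {d : ℕ∞} (hd : (n : ℕ∞) < d) :
    PartitionRegularDistinct (pat n N) (P d) := by
  classical
  have hsub : P ((n + 1 : ℕ) : ℕ∞) ⊆ P d := P_mono (by
    push_cast
    exact Order.add_one_le_of_lt hd)
  have hm : 1 ≤ n + 1 := by omega
  intro r c
  let c' : MvPolynomial ℕ ℕ → Fin r := fun f =>
    if h : f ∈ P d then c ⟨f, h⟩ else c ⟨X 0, hsub (P_X hm 0)⟩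
  have hc' : ∀ f (h : f ∈ P d), c' f = c ⟨f, h⟩ := fun f h => dif_pos h
  obtain ⟨f, u, g, t, χ, hf, hu, hg, ht, hz, hS, hW, hinj, hne, hug, hut, hgt, hSS, hWS⟩ :=
    hasCopy hm hN c'
  let a : Fin N ⊕ Fin 3 → MvPolynomial ℕ ℕ := Sum.elim f ![u, g, t]
  have hinl : ∀ S, aeval a (pat n N (Sum.inl S)) = ∑ k ∈ S.1, f k := fun S => by
    rw [aeval_inl]
    rfl
  have hinr : ∀ x, aeval a (pat n N (Sum.inr x)) = u * (g * esym (n + 1) f + t) := fun x => by
    rw [aeval_inr]
    rfl
  have hcopy : IsCopy (pat n N) (P d) a := by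
    refine ⟨?_, ?_⟩
    · rintro (k | j)
      · exact hsub (hf k)
      · fin_cases j
        · exact hsub hu
        · exact hsub hg
        · exact hsub ht
    · rintro (S | x)
      · rw [hinl]
        exact hsub (P_sum S.2 fun k _ => hf k)
      · rw [hinr]
        exact hsub hz
  refine ⟨a, hcopy, ?_, ?_, ?_⟩
  · rintro (k | j) (l | j') hkl
    · exact congrArg Sum.inl (hinj hkl)
    · exfalso
      fin_cases j'
      · exact (hne k).1 hkl.symm
      · exact (hne k).2.1 hkl.symm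
      · exact (hne k).2.2 hkl.symm
    · exfalso
      fin_cases j
      · exact (hne l).1 hkl
      · exact (hne l).2.1 hkl
      · exact (hne l).2.2 hkl
    · have h3 : ∀ j j' : Fin 3, j < j' → (![u, g, t] : Fin 3 → MvPolynomial ℕ ℕ) j ≠ ![u, g, t] j' := by
        intro j j' hjj
        fin_cases j <;> fin_cases j' <;>
          first
            | exact absurd hjj (by decide)
            | exact hug
            | exact hut
            | exact hgt
      rcases lt_trichotomy j j' with h | h | h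
      · exact absurd hkl (h3 j j' h)
      · rw [h]
      · exact absurd hkl.symm (h3 j' j h)
  · rintro (S | x) (S' | x') hSx
    · have h1 : aeval a (pat n N (Sum.inl S)) = aeval a (pat n N (Sum.inl S')) := hSx
      rw [hinl, hinl] at h1
      exact congrArg Sum.inl (Subtype.ext (hSS _ _ h1))
    · have h1 : aeval a (pat n N (Sum.inl S)) = aeval a (pat n N (Sum.inr x')) := hSx
      rw [hinl, hinr] at h1
      exact absurd h1.symm (hWS _)
    · have h1 : aeval a (pat n N (Sum.inr x)) = aeval a (pat n N (Sum.inl S')) := hSx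
      rw [hinl, hinr] at h1
      exact absurd h1 (hWS _)
    · rfl
  · have key : ∀ l, c ⟨aeval a (pat n N l), hcopy.2 l⟩ = χ := by
      intro l
      rw [← hc']
      rcases l with S | x
      · rw [hinl]
        exact hS S.1 S.2
      · rw [hinr]
        exact hW
    intro l l'
    rw [key l, key l']

/-- **One pattern for every threshold.** For every `n ≥ 1` there is a pattern `F` (a finite family
of nonzero polynomials with coefficients in `ℕ` and without constant term, in finitely many formal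
variables) which appears in `P 1` and so in every `P d`, `1 ≤ d ≤ ∞`, and which is partition
regular over `P d`, `0 ≤ d ≤ ∞`, if and only if `d > n`. For `d > n` there are even monochromatic
copies with distinct entries and distinct values; for `d ≤ n` already some colouring with two
colours has no monochromatic copy. -/
theorem result (n : ℕ) (hn : 1 ≤ n) :
    ∃ (σ ι : Type) (_ : Fintype σ) (_ : Fintype ι) (F : ι → MvPolynomial σ ℕ),
      (∀ l, F l ≠ 0 ∧ constantCoeff (F l) = 0) ∧
      (∀ d : ℕ∞, 1 ≤ d → ∃ a, IsCopy F (P d) a) ∧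
      (∀ d : ℕ∞, PartitionRegular F (P d) ↔ n < d) ∧
      (∀ d : ℕ∞, PartitionRegularDistinct F (P d) ↔ n < d) ∧
      ∀ d : ℕ∞, d ≤ n → ∃ c : P d → Fin 2, ¬ HasMono F (P d) c := by
  classical
  have hN : n + 1 ≤ 2 * n * n + 1 := by nlinarith
  have hneg : ∀ d : ℕ∞, d ≤ n → ∃ c : P d → Fin 2, ¬ HasMono (pat n (2 * n * n + 1)) (P d) c := by
    intro d hd
    refine ⟨fun f => if Red (f : MvPolynomial ℕ ℕ) then 1 else 0, ?_⟩
    rintro ⟨a, h, hmono⟩
    refine no_copy hn a ⟨fun t => P_mono hd (h.1 t), fun l => P_mono hd (h.2 l)⟩ fun S hr => ?_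
    by_contra hcon
    have h1 := hmono (Sum.inr ()) (Sum.inl S)
    beta_reduce at h1
    rw [if_pos hr, if_neg hcon] at h1
    exact absurd h1 (by decide)
  have hPR : ∀ d : ℕ∞, PartitionRegular (pat n (2 * n * n + 1)) (P d) → n < d := by
    intro d h
    by_contra hd
    obtain ⟨c, hc⟩ := hneg d (not_lt.1 hd)
    exact hc (h 2 c)
  have hDP : ∀ d : ℕ∞, PartitionRegularDistinct (pat n (2 * n * n + 1)) (P d) →
      PartitionRegular (pat n (2 * n * n + 1)) (P d) := by
    intro d h r c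
    obtain ⟨a, h1, -, -, h2⟩ := h r c
    exact ⟨a, h1, h2⟩
  refine ⟨_, _, inferInstance, inferInstance, pat n (2 * n * n + 1), ?_, ?_, ?_, ?_, hneg⟩
  · intro l
    obtain ⟨a, ha⟩ := appears (n := n) (N := 2 * n * n + 1)
    refine ⟨fun h0 => ?_, ?_⟩
    · have h1 := (ha.2 l).1
      rw [h0, map_zero] at h1
      exact h1 rfl
    · rcases l with S | x
      · simp [pat]
      · simp [pat]
  · intro d hd
    obtain ⟨a, ha⟩ := appears (n := n) (N := 2 * n * n + 1)
    have hsub : P ((1 : ℕ) : ℕ∞) ⊆ P d := P_mono (by simpa using hd)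
    exact ⟨a, fun t => hsub (ha.1 t), fun l => hsub (ha.2 l)⟩
  · exact fun d => ⟨hPR d, fun hd => hDP d (pr_distinct hN hd)⟩
  · exact fun d => ⟨fun h => hPR d (hDP d h), fun hd => pr_distinct hN hd⟩

end Pool.Agent.Results.MP_b358a5_co.MultilinearThreshold
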